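import Pool.Agent.UMG.StmtsA

/-!
# Squad UMG, row EVP: evaluation of the polynomials of block A
-/

set_option autoImplicit false

namespace Pool.Agent.UMG.H62

open Finset

theorem evp (hEvc : EvcStmt) : EvpStmt := by
  intro K y d
  have hE : ∀ (w : ℕ → MvPolynomial ℕ ℝ) (n : ℕ),
      MvPolynomial.eval y (E w n) = E (fun l => MvPolynomial.eval y (w l)) n := by
    intro w n
    exact hEvc (MvPolynomial ℕ ℝ) ℝ (MvPolynomial.eval y) w n
  have hX : ∀ i, MvPolynomial.eval y (Xv i) = y i := by
    intro i
    unfold Xv
    rw [MvPolynomial.eval_X]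
  have hh' : ∀ l k, MvPolynomial.eval y (hh Xv l k) = hh y l k := by
    intro l k
    unfold hh
    rw [hE]
    simp only [hX]
  have haa : ∀ k n, MvPolynomial.eval y (aa Xv k n) = aa y k n := by
    intro k n
    unfold aa
    rw [hE]
    simp only [hh']
  have hws : ∀ k l, MvPolynomial.eval y (ws K Xv k l) = ws K y k l := by
    intro k l
    unfold ws
    split_ifs with h1 h2
    · rw [hE]
      have : (fun l => MvPolynomial.eval y (if l ≤ K then Xv l else 0)) =
          fun i => if i ≤ K then y i else 0 := by
        funext i
        split_ifs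
        · exact hX i
        · exact map_zero _
      rw [this]
    · exact hh' 2 3
    · exact map_zero _
  refine ⟨?_, ?_⟩
  · unfold PP
    rw [map_prod]
    simp only [haa]
  · unfold PS
    rw [map_prod]
    refine Finset.prod_congr rfl fun k _ => ?_
    rw [hE]
    simp only [hws]

end Pool.Agent.UMG.H62
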